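import Pool.Agent.H65.CRZ.TN
import Pool.Agent.H96.CV.LS

/-!
# Zeros on the critical line: the bounds for `Eb`
-/

set_option autoImplicit false

open NumberField NumberField.InfinitePlace Complex Filter Topology MeasureTheory

namespace Pool.Agent.H69.CRZ

open Pool.Agent.H28.RC Pool.Agent.H25.HK Pool.Agent.H37.CV Pool.Agent.H65.CRZ

section comb

variable {α : Type}

theorem sum_pw (A : Finset α) (c : α → ℝ) (C₂ : ℝ) (hc : ∀ P, 0 ≤ c P)
    (hC : ∑ P ∈ A, c P ≤ C₂) : ∑ S ∈ A.powerset, ∏ P ∈ S, c P ≤ Real.exp C₂ := by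
  classical
  rw [← Finset.prod_one_add]
  calc ∏ P ∈ A, (1 + c P) ≤ ∏ P ∈ A, Real.exp (c P) := by
        refine Finset.prod_le_prod (fun P _ => by linarith [hc P]) fun P _ => ?_
        rw [add_comm]
        exact Real.add_one_le_exp _
    _ = Real.exp (∑ P ∈ A, c P) := (Real.exp_sum _ _).symm
    _ ≤ Real.exp C₂ := Real.exp_le_exp.2 hC

/-- one element is removed from each set -/
theorem sum_rm (A : Finset α) (F : Finset (Finset α)) (c : α → ℝ) (Q : α → Finset α → Prop)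
    (D : ℝ) (hF : F ⊆ A.powerset) (hc : ∀ P, 0 ≤ c P)
    (hQ : ∀ S ∈ F, ∃ (P : α) (T : Finset α) (h : P ∉ T), S = Finset.cons P T h ∧ Q P T)
    (hD : ∀ S X : Finset α, X ⊆ A → (∀ P ∈ X, Q P S) → ∑ P ∈ X, c P ≤ D) :
    ∑ S ∈ F, ∏ P ∈ S, c P ≤ (∑ S ∈ A.powerset, ∏ P ∈ S, c P) * D := by
  classical
  have hD0 : 0 ≤ D := by
    have := hD ∅ ∅ (Finset.empty_subset _) (by simp)
    rwa [Finset.sum_empty] at this
  rcases F.eq_empty_or_nonempty with rfl | ⟨S₀, hS₀⟩
  · rw [Finset.sum_empty]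
    exact mul_nonneg (Finset.sum_nonneg fun S _ => Finset.prod_nonneg fun P _ => hc P) hD0
  obtain ⟨P₀, -⟩ := hQ S₀ hS₀
  haveI : Nonempty ((_ : Finset α) × α) := ⟨⟨∅, P₀⟩⟩
  have hQ' : ∀ S ∈ F, ∃ x : (_ : Finset α) × α, x.2 ∉ x.1 ∧ insert x.2 x.1 = S ∧
      Q x.2 x.1 := by
    intro S hS
    obtain ⟨P, T, h, h1, h2⟩ := hQ S hS
    exact ⟨⟨T, P⟩, h, by rw [h1, Finset.cons_eq_insert], h2⟩
  choose! p hp using hQ'
  have h1 : ∀ S ∈ F, ∏ P ∈ S, c P = (∏ P ∈ (p S).1, c P) * c (p S).2 := by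
    intro S hS
    obtain ⟨h2, h3, -⟩ := hp S hS
    conv_lhs => rw [← h3]
    rw [Finset.prod_insert h2, mul_comm]
  have h2 : ∑ x ∈ A.powerset.sigma (fun S => A.filter (fun P => Q P S)),
        (∏ P ∈ x.1, c P) * c x.2 =
      ∑ S ∈ A.powerset, (∏ P ∈ S, c P) * ∑ P ∈ A.filter (fun P => Q P S), c P := by
    rw [Finset.sum_sigma]
    refine Finset.sum_congr rfl fun S _ => ?_
    rw [Finset.mul_sum]
  have h3 : Set.InjOn p F := by
    intro S hS T hT h
    rw [← (hp S hS).2.1, ← (hp T hT).2.1, h]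
  have h4 : F.image p ⊆ A.powerset.sigma (fun S => A.filter (fun P => Q P S)) := by
    intro x hx
    simp only [Finset.mem_image] at hx
    obtain ⟨S, hS, rfl⟩ := hx
    have hSA := Finset.mem_powerset.1 (hF hS)
    obtain ⟨h5, h6, h7⟩ := hp S hS
    rw [Finset.mem_sigma, Finset.mem_filter, Finset.mem_powerset]
    rw [← h6] at hSA
    exact ⟨(Finset.subset_insert _ _).trans hSA, hSA (Finset.mem_insert_self _ _), h7⟩
  calc ∑ S ∈ F, ∏ P ∈ S, c P = ∑ S ∈ F, (∏ P ∈ (p S).1, c P) * c (p S).2 :=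
        Finset.sum_congr rfl h1
    _ = ∑ x ∈ F.image p, (∏ P ∈ x.1, c P) * c x.2 := by
        rw [Finset.sum_image h3]
    _ ≤ ∑ x ∈ A.powerset.sigma (fun S => A.filter (fun P => Q P S)),
          (∏ P ∈ x.1, c P) * c x.2 :=
        Finset.sum_le_sum_of_subset_of_nonneg h4 fun x _ _ =>
          mul_nonneg (Finset.prod_nonneg fun P _ => hc P) (hc _)
    _ = ∑ S ∈ A.powerset, (∏ P ∈ S, c P) * ∑ P ∈ A.filter (fun P => Q P S), c P := h2
    _ ≤ ∑ S ∈ A.powerset, (∏ P ∈ S, c P) * D :=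
        Finset.sum_le_sum fun S _ => mul_le_mul_of_nonneg_left
          (hD S _ (Finset.filter_subset _ _) fun P hP => (Finset.mem_filter.1 hP).2)
          (Finset.prod_nonneg fun P _ => hc P)
    _ = (∑ S ∈ A.powerset, ∏ P ∈ S, c P) * D := (Finset.sum_mul _ _ _).symm

end comb

theorem norm_one_sub_exp (w : ℂ) : ‖1 - cexp w‖ ≤ ‖w‖ * Real.exp ‖w‖ := by
  have := Complex.norm_exp_sub_sum_le_norm_mul_exp w 1
  simp only [Finset.range_one, Finset.sum_singleton, pow_zero, Nat.factorial_zero, Nat.cast_one,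
    div_one, pow_one] at this
  rw [norm_sub_rev]
  exact this

section
variable {K : Type} [Field K] [NumberField K]

theorem norm_b_le {C₀ M : ℝ} {β : ℂ} (hM : 2 ≤ M) (hβ : ‖β‖ ≤ C₀ / Real.log M)
    (P : PrI K) (hP : np P ≤ M) :
    ‖(1 - ((np P : ℝ) : ℂ) ^ (-β)) / ((np P - 1 : ℝ) : ℂ)‖ ≤
      Real.exp C₀ * ‖β‖ * (Real.log (np P) / (np P - 1)) := by
  have h2 := Pool.Agent.H96.CV.two_le_np P
  have hlM : 0 < Real.log M := Real.log_pos (by linarith)
  have hlP : 0 ≤ Real.log (np P) := Real.log_nonneg (by linarith)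
  have h3 : ((np P : ℝ) : ℂ) ^ (-β) = cexp (-β * (Real.log (np P) : ℝ)) := by
    rw [Complex.cpow_def_of_ne_zero (by exact_mod_cast (by linarith : np P ≠ 0)),
      Complex.ofReal_log (by linarith), mul_comm]
  have h4 : ‖-β * ((Real.log (np P) : ℝ) : ℂ)‖ = ‖β‖ * Real.log (np P) := by
    rw [norm_mul, norm_neg, Complex.norm_real, Real.norm_of_nonneg hlP]
  have h5 : ‖β‖ * Real.log (np P) ≤ C₀ := by
    calc ‖β‖ * Real.log (np P) ≤ ‖β‖ * Real.log M :=
          mul_le_mul_of_nonneg_left (Real.log_le_log (by linarith) hP) (norm_nonneg _)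
      _ ≤ C₀ / Real.log M * Real.log M := mul_le_mul_of_nonneg_right hβ hlM.le
      _ = C₀ := div_mul_cancel₀ _ hlM.ne'
  have h6 := norm_one_sub_exp (-β * ((Real.log (np P) : ℝ) : ℂ))
  rw [h4] at h6
  rw [norm_div, h3, Complex.norm_real, Real.norm_of_nonneg (by linarith), mul_div_assoc']
  refine div_le_div_of_nonneg_right (h6.trans ?_) (by linarith)
  calc ‖β‖ * Real.log (np P) * Real.exp (‖β‖ * Real.log (np P)) ≤
        ‖β‖ * Real.log (np P) * Real.exp C₀ :=
        mul_le_mul_of_nonneg_left (Real.exp_le_exp.2 h5) (mul_nonneg (norm_nonneg _) hlP)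
    _ = Real.exp C₀ * ‖β‖ * Real.log (np P) := by ring

end

theorem pf_EB (h1 : T_CH) : T_EB := by
  classical
  intro K _ _ C₀ hC₀
  obtain ⟨C, hC, hCH⟩ := h1 K
  set C₂ : ℝ := Real.exp C₀ * C₀ * C * 3 with hC₂
  have hC₂0 : 0 ≤ C₂ := by positivity
  have e0 : 1 ≤ Real.exp C₀ := Real.one_le_exp hC₀.le
  have e2 : 1 ≤ Real.exp C₂ := Real.one_le_exp hC₂0
  have a1 : Real.exp C₂ ≤ Real.exp C₂ * Real.exp C₀ :=
    le_mul_of_one_le_right (by positivity) e0
  have a2 : Real.exp C₂ * Real.exp C₀ ≤ Real.exp C₂ * Real.exp C₀ * C :=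
    le_mul_of_one_le_right (by positivity) hC
  refine ⟨Real.exp C₂ * Real.exp C₀ * C, by linarith, ?_⟩
  intro M β hM hβ x y hxM hyx
  have hlM : 0 < Real.log M := Real.log_pos (by linarith)
  -- the weights
  set u : PrI K → ℝ := fun P => Real.log (np P) / (np P - 1) with hu
  have hu0 : ∀ P, 0 ≤ u P := fun P => by
    have h2 := Pool.Agent.H96.CV.two_le_np P
    exact div_nonneg (Real.log_nonneg (by linarith)) (by linarith)
  set c : PrI K → ℝ := fun P => ‖(1 - ((np P : ℝ) : ℂ) ^ (-β)) / ((np P - 1 : ℝ) : ℂ)‖ with hc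
  have hc0 : ∀ P, 0 ≤ c P := fun P => norm_nonneg _
  have hcu : ∀ P ∈ PM K M, c P ≤ Real.exp C₀ * ‖β‖ * u P := fun P hP =>
    norm_b_le hM hβ P (Pool.Agent.H96.CV.mem_PM.1 hP)
  have hbP : ∀ S : Finset (PrI K), ‖bP np β S‖ = ∏ P ∈ S, c P := fun S => by
    unfold bP
    rw [norm_prod]
  have hsum : ∑ P ∈ PM K M, c P ≤ C₂ := by
    have h3 : ∑ P ∈ PM K M, u P ≤ C * (1 + Real.log M) := by
      refine hCH 1 M (PM K M) le_rfl (by linarith) fun P hP => ⟨?_, ?_⟩
      · linarith [Pool.Agent.H96.CV.two_le_np P]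
      · rw [one_mul]
        exact Pool.Agent.H96.CV.mem_PM.1 hP
    have hl2 : (1 / 2 : ℝ) ≤ Real.log M := by
      have := Real.log_two_gt_d9
      have h4 : Real.log 2 ≤ Real.log M := Real.log_le_log (by norm_num) hM
      linarith
    have h5 : C₀ / Real.log M * (1 + Real.log M) ≤ C₀ * 3 := by
      rw [div_mul_eq_mul_div, div_le_iff₀ hlM]
      nlinarith
    calc ∑ P ∈ PM K M, c P ≤ ∑ P ∈ PM K M, Real.exp C₀ * ‖β‖ * u P := Finset.sum_le_sum hcu
      _ = Real.exp C₀ * ‖β‖ * ∑ P ∈ PM K M, u P := (Finset.mul_sum _ _ _).symm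
      _ ≤ Real.exp C₀ * ‖β‖ * (C * (1 + Real.log M)) :=
          mul_le_mul_of_nonneg_left h3 (by positivity)
      _ = Real.exp C₀ * C * (‖β‖ * (1 + Real.log M)) := by ring
      _ ≤ Real.exp C₀ * C * (C₀ / Real.log M * (1 + Real.log M)) := by
          refine mul_le_mul_of_nonneg_left ?_ (by positivity)
          exact mul_le_mul_of_nonneg_right hβ (by linarith)
      _ ≤ Real.exp C₀ * C * (C₀ * 3) := mul_le_mul_of_nonneg_left h5 (by positivity)
      _ = C₂ := by rw [hC₂]; ring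
  have hpw := sum_pw (PM K M) c C₂ hc0 hsum
  have hDS : ∀ z : ℝ, DS np (PM K M) z ⊆ (PM K M).powerset := fun z => Finset.filter_subset _ _
  have hmem : ∀ (z : ℝ) (S : Finset (PrI K)), S ∈ DS np (PM K M) z ↔
      S ⊆ PM K M ∧ nS np S ≤ z := by
    intro z S
    unfold DS
    rw [Finset.mem_filter, Finset.mem_powerset]
  have hE0 : ∀ z : ℝ, Eb np (PM K M) ∅ z β = ∑ S ∈ DS np (PM K M) z, bP np β S := by
    intro z
    unfold Eb
    rw [Finset.filter_true_of_mem fun S _ => Finset.disjoint_empty_right _]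
  -- the key estimate
  have key : ∀ (F : Finset (Finset (PrI K))) (Q : PrI K → Finset (PrI K) → Prop) (D : ℝ),
      F ⊆ (PM K M).powerset →
      (∀ S ∈ F, ∃ (P : PrI K) (T : Finset (PrI K)) (h : P ∉ T), S = Finset.cons P T h ∧
        Q P T) →
      (∀ S X : Finset (PrI K), (∀ P ∈ X, Q P S) → ∑ P ∈ X, u P ≤ D) →
      ‖∑ S ∈ F, bP np β S‖ ≤ Real.exp C₂ * Real.exp C₀ * ‖β‖ * D := by
    intro F Q D hF hQ hQD
    have hD0 : 0 ≤ D := by
      have := hQD ∅ ∅ (fun P hP => absurd hP (Finset.notMem_empty P))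
      rwa [Finset.sum_empty] at this
    have h3 := sum_rm (PM K M) F c Q (Real.exp C₀ * ‖β‖ * D) hF hc0 hQ (by
      intro S X hX hXQ
      have h4 : ∑ P ∈ X, c P ≤ ∑ P ∈ X, Real.exp C₀ * ‖β‖ * u P :=
        Finset.sum_le_sum fun P hP => hcu P (hX hP)
      rw [← Finset.mul_sum] at h4
      exact h4.trans (mul_le_mul_of_nonneg_left (hQD S X hXQ)
        (mul_nonneg (Real.exp_pos _).le (norm_nonneg _))))
    have h4 : ‖∑ S ∈ F, bP np β S‖ ≤ ∑ S ∈ F, ∏ P ∈ S, c P :=
      (norm_sum_le _ _).trans (le_of_eq (Finset.sum_congr rfl fun S _ => hbP S))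
    have h5 : (∑ S ∈ (PM K M).powerset, ∏ P ∈ S, c P) * (Real.exp C₀ * ‖β‖ * D) ≤
        Real.exp C₂ * (Real.exp C₀ * ‖β‖ * D) :=
      mul_le_mul_of_nonneg_right hpw
        (mul_nonneg (mul_nonneg (Real.exp_pos _).le (norm_nonneg _)) hD0)
    have h6 : Real.exp C₂ * Real.exp C₀ * ‖β‖ * D = Real.exp C₂ * (Real.exp C₀ * ‖β‖ * D) := by
      ring
    rw [h6]
    exact h4.trans (h3.trans h5)
  have hER : ∀ R : Finset (PrI K), ∃ F₀ : Finset (Finset (PrI K)), (∀ S, S ∈ F₀ ↔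
      S ∈ DS np (PM K M) x ∧ Disjoint S R) ∧ Eb np (PM K M) R x β = ∑ S ∈ F₀, bP np β S := by
    intro R
    refine ⟨_, ?_, rfl⟩
    intro S
    exact @Finset.mem_filter _ _ (_) _ _
  refine ⟨fun R => ⟨?_, ?_⟩, fun hy => ?_⟩
  · obtain ⟨F₀, hF₀, hE⟩ := hER R
    have h3 : ‖Eb np (PM K M) R x β‖ ≤ Real.exp C₂ := by
      rw [hE]
      refine (norm_sum_le _ _).trans ?_
      refine (Finset.sum_le_sum_of_subset_of_nonneg (t := (PM K M).powerset)
        (fun S hS => hDS x ((hF₀ S).1 hS).1) fun S _ _ => norm_nonneg _).trans ?_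
      exact (le_of_eq (Finset.sum_congr rfl fun S _ => hbP S)).trans hpw
    linarith
  · obtain ⟨F₀, hF₀, hE⟩ := hER R
    have hE' := hE0 x
    rw [hE', hE, ← Finset.sum_sdiff (s₁ := F₀) (s₂ := DS np (PM K M) x)
      fun S hS => ((hF₀ S).1 hS).1, sub_add_cancel_right, norm_neg]
    have hD0 : 0 ≤ ∑ P ∈ R, u P := Finset.sum_nonneg fun P _ => hu0 P
    have h4 := key (DS np (PM K M) x \ F₀) (fun P _ => P ∈ R)
      (∑ P ∈ R, u P) (Finset.sdiff_subset.trans (hDS x)) (by
        intro S hS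
        obtain ⟨h5, h6⟩ := Finset.mem_sdiff.1 hS
        have h7 : ¬ Disjoint S R := fun h => h6 ((hF₀ S).2 ⟨h5, h⟩)
        rw [Finset.not_disjoint_iff] at h7
        obtain ⟨P, hP, hPR⟩ := h7
        refine ⟨P, S.erase P, Finset.notMem_erase _ _, ?_, hPR⟩
        rw [Finset.cons_eq_insert]
        exact (Finset.insert_erase hP).symm) (by
        intro S X hX
        exact Finset.sum_le_sum_of_subset_of_nonneg hX fun P _ _ => hu0 P)
    refine h4.trans ?_
    refine mul_le_mul_of_nonneg_right ?_ hD0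
    exact mul_le_mul_of_nonneg_right a2 (norm_nonneg _)
  · have hx1 : 1 ≤ x := hy.trans hyx
    have hr : 1 ≤ x / y := (one_le_div (by linarith)).2 hyx
    have hsub : DS np (PM K M) y ⊆ DS np (PM K M) x := by
      intro S hS
      rw [hmem] at hS ⊢
      exact ⟨hS.1, hS.2.trans hyx⟩
    rw [hE0 x, hE0 y, ← Finset.sum_sdiff hsub, add_sub_cancel_right]
    have h4 := key (DS np (PM K M) x \ DS np (PM K M) y)
      (fun P S => y < nS np S * np P ∧ nS np S * np P ≤ x)
      (C * (1 + Real.log (x / y))) (Finset.sdiff_subset.trans (hDS x)) (by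
        intro S hS
        obtain ⟨h5, h6⟩ := Finset.mem_sdiff.1 hS
        rw [hmem] at h5 h6
        have h7 : y < nS np S := by
          by_contra h
          exact h6 ⟨h5.1, not_lt.1 h⟩
        have h8 : S.Nonempty := by
          rw [Finset.nonempty_iff_ne_empty]
          rintro rfl
          unfold nS at h7
          rw [Finset.prod_empty] at h7
          linarith
        obtain ⟨P, hP⟩ := h8
        have h9 : nS np (S.erase P) * np P = nS np S := Finset.prod_erase_mul _ _ hP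
        refine ⟨P, S.erase P, Finset.notMem_erase _ _, ?_, ?_, ?_⟩
        · rw [Finset.cons_eq_insert]
          exact (Finset.insert_erase hP).symm
        · rw [h9]
          exact h7
        · rw [h9]
          exact h5.2) (by
        intro S X hX
        have hS1 := Pool.Agent.H96.CV.one_le_nS S
        have hS0 : 0 < nS np S := by linarith
        refine hCH (max 1 (y / nS np S)) (x / y) X (le_max_left _ _) hr fun P hP => ?_
        obtain ⟨h5, h6⟩ := hX P hP
        refine ⟨max_lt ?_ ?_, ?_⟩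
        · linarith [Pool.Agent.H96.CV.two_le_np P]
        · rw [div_lt_iff₀ hS0, mul_comm]
          exact h5
        · have h7 : np P ≤ y / nS np S * (x / y) := by
            have : y / nS np S * (x / y) = x / nS np S := by
              have : y ≠ 0 := by linarith
              field_simp
            rw [this, le_div_iff₀ hS0, mul_comm]
            exact h6
          exact h7.trans (mul_le_mul_of_nonneg_right (le_max_right _ _) (by linarith)))
    refine h4.trans (le_of_eq ?_)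
    ring

end Pool.Agent.H69.CRZ
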