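import Pool.Agent.H69.CRZ.FGa
import Pool.Agent.H37.CA.All

/-!
# Zeros on the critical line: the Artin L-functions
-/

set_option autoImplicit false

namespace Pool.Agent.H69.CRZ

open Pool.Agent.H65.CRZ Pool.Agent.H37.CA

theorem pf_FG (h1 : Pool.Agent.H65.CRZ.T_FM) (h2 : T_ZM) : T_FG :=
  core_FG a_FSI a_CNU a_GCT a_IIR a_FIB a_GRF a_COM a_COR a_CNT a_PNC a_ALF
    Pool.Agent.H37.CV.a_OR h1 h2

end Pool.Agent.H69.CRZ
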