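import Pool.Agent.H65.CRZ.TD
import Pool.Agent.H37.CV.IE
import Pool.Agent.H37.CV.SM

/-!
# Zeros on the critical line: the Artin L-functions, from the facts on the ray class field
-/

set_option autoImplicit false

open NumberField NumberField.InfinitePlace Complex Filter Topology

namespace Pool.Agent.H69.CRZ

open Pool.Agent.H28.RC Pool.Agent.H25 Pool.Agent.H25.HK Pool.Agent.H37.CV Pool.Agent.H37.CA
  Pool.Agent.H65.CRZ

/-- the sum over the fibres -/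
theorem fib_sum {ι κ : Type} (P : Finset ι) (U : Finset κ) (F : ι → κ) (w : ι → ℝ) (g : κ → ι)
    (k : ℕ) (hw : ∀ i, 0 ≤ w i) (hU : ∀ i ∈ P, F i ∈ U)
    (hk : ∀ f ∈ U, ∀ X : Finset ι, X ⊆ P → (∀ i ∈ X, F i = f) → X.card ≤ k)
    (hg : ∀ f ∈ U, ∀ i ∈ P, F i = f → w i ≤ w (g f)) :
    ∑ i ∈ P, w i ≤ k * ∑ f ∈ U, w (g f) := by
  classical
  rw [← Finset.sum_fiberwise_of_maps_to hU, Finset.mul_sum]
  refine Finset.sum_le_sum fun f hf => ?_
  have h1 : ∑ i ∈ P.filter (fun i => F i = f), w i ≤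
      (P.filter (fun i => F i = f)).card • w (g f) :=
    Finset.sum_le_card_nsmul _ _ _ fun i hi =>
      hg f hf i (Finset.mem_filter.1 hi).1 (Finset.mem_filter.1 hi).2
  rw [nsmul_eq_mul] at h1
  refine h1.trans (mul_le_mul_of_nonneg_right ?_ (hw _))
  exact_mod_cast hk f hf _ (Finset.filter_subset _ _) fun i hi => (Finset.mem_filter.1 hi).2

theorem ineq_one (ε t N I u pr p' : ℝ) (ht : 0 < t) (hε : 8 * t ≤ ε) (hN : 0 < N)
    (hI0 : 0 ≤ I) (hu0 : 0 ≤ u) (h1 : (1 - t) * N ≤ pr) (h2 : pr ≤ p' + 2 * t * N)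
    (h3 : p' ≤ 2 * u) (h4 : 2 * I ≤ (1 + 4 * t) * N) : (1 - ε) * I ≤ u := by
  by_cases h0 : 1 - ε ≤ 0
  · exact (mul_nonpos_of_nonpos_of_nonneg h0 hI0).trans hu0
  · rw [not_le] at h0
    have h5 : (1 - ε) * (2 * I) ≤ (1 - ε) * ((1 + 4 * t) * N) :=
      mul_le_mul_of_nonneg_left h4 h0.le
    have h6 : (1 - ε) * (1 + 4 * t) ≤ 1 - 3 * t := by nlinarith
    have h7 : (1 - ε) * (1 + 4 * t) * N ≤ (1 - 3 * t) * N :=
      mul_le_mul_of_nonneg_right h6 hN.le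
    linarith

theorem ineq_two (ε t X N I u pr sP sQ sU : ℝ) (ht : 0 < t) (ht1 : t ≤ 1) (hε : 8 * t ≤ ε)
    (hN : 0 < N) (hX : 0 ≤ X) (hu0 : 0 ≤ u) (hs0 : 0 ≤ sU) (h1 : (1 - t) * N ≤ pr)
    (hu : u ≤ I) (h4 : 2 * I ≤ (1 + 4 * t) * N) (h5 : (345 / 1000 - t) * X * pr ≤ sP)
    (h6 : sP ≤ sQ + 2 * t * N * ((1 + t) * X)) (h7 : sQ ≤ 2 * sU) :
    (345 / 1000 - ε) * X * u ≤ sU := by
  by_cases h0 : 345 / 1000 - ε ≤ 0
  · exact (mul_nonpos_of_nonpos_of_nonneg (mul_nonpos_of_nonpos_of_nonneg h0 hX) hu0).trans hs0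
  · rw [not_le] at h0
    have h8 : (345 / 1000 - ε) * X * (2 * u) ≤ (345 / 1000 - ε) * X * ((1 + 4 * t) * N) :=
      mul_le_mul_of_nonneg_left (by linarith) (mul_nonneg h0.le hX)
    have h9 : (345 / 1000 - t) * X * ((1 - t) * N) ≤ (345 / 1000 - t) * X * pr :=
      mul_le_mul_of_nonneg_left h1 (mul_nonneg (by linarith) hX)
    have h10 : (345 / 1000 - ε) * (1 + 4 * t) ≤
        (345 / 1000 - t) * (1 - t) - 2 * t * (1 + t) := by nlinarith
    have h11 : (345 / 1000 - ε) * (1 + 4 * t) * (X * N) ≤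
        ((345 / 1000 - t) * (1 - t) - 2 * t * (1 + t)) * (X * N) :=
      mul_le_mul_of_nonneg_right h10 (mul_nonneg hX hN.le)
    have e1 : (345 / 1000 - ε) * X * ((1 + 4 * t) * N) =
        (345 / 1000 - ε) * (1 + 4 * t) * (X * N) := by ring
    have e2 : ((345 / 1000 - t) * (1 - t) - 2 * t * (1 + t)) * (X * N) =
        (345 / 1000 - t) * X * ((1 - t) * N) - 2 * t * N * ((1 + t) * X) := by ring
    have e3 : (345 / 1000 - ε) * X * (2 * u) = 2 * ((345 / 1000 - ε) * X * u) := by ring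
    linarith

/-- the order of the zeros is finite when the zeros are finite in number -/
theorem ord_ne_top {f : ℂ → ℂ} {T : ℝ} (h : {ρ : ℂ | ρ ∈ St T ∧ f ρ = 0}.Finite) {s : ℂ}
    (hs : s ∈ St T) : analyticOrderAt f s ≠ ⊤ := by
  intro h1
  rw [analyticOrderAt_eq_top] at h1
  have h2 : St T ∈ 𝓝 s := by
    refine IsOpen.mem_nhds ?_ hs
    exact (isOpen_lt continuous_const Complex.continuous_im).inter
      (isOpen_lt Complex.continuous_im continuous_const)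
  have h3 : {ρ : ℂ | ρ ∈ St T ∧ f ρ = 0} ∈ 𝓝 s := by
    filter_upwards [h1, h2] with z h4 h5 using ⟨h5, h4⟩
  exact infinite_of_mem_nhds s h3 h

theorem core_FG (hFSI : T_FSI) (hCNU : T_CNU) (hGCT : T_GCT) (hIIR : T_IIR) (hFIB : T_FIB)
    (hGRF : T_GRF) (hCOM : T_COM) (hCOR : T_COR) (hCNT : T_CNT) (hPNC : T_PNC) (hALF : T_ALF)
    (hOR : T_OR) (h1 : Pool.Agent.H65.CRZ.T_FM) (h2 : T_ZM) : T_FG := by
  classical
  intro F _ _ _ _ hF2 ε hε
  set t : ℝ := min (ε / 8) 1 with htdef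
  have ht0 : 0 < t := lt_min (by positivity) one_pos
  have ht1 : t ≤ 1 := min_le_right _ _
  have htε : 8 * t ≤ ε := by
    have := min_le_left (ε / 8) 1
    linarith
  obtain ⟨T₀, hT₀, hFM⟩ := h1 F hF2 t ht0
  refine ⟨T₀, hT₀, fun T hT => ?_⟩
  have hT0 : 0 < T := lt_of_lt_of_le hT₀ hT
  obtain ⟨q₁, hq1⟩ := hFM T hT
  obtain ⟨q₂, hq2⟩ := hPNC F t ht0
  obtain ⟨q₃, hq3⟩ := hCNT F t ht0
  obtain ⟨q₄, hq4⟩ := hCNU F t ht0
  refine ⟨max (max q₁ q₄) (max q₂ q₃), fun q hq hqq L _ _ _ _ hL => ?_⟩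
  have hqa : q₁ ≤ q := ((le_max_left _ _).trans (le_max_left _ _)).trans hqq
  have hqd : q₄ ≤ q := ((le_max_right _ _).trans (le_max_left _ _)).trans hqq
  have hqb : q₂ ≤ q := ((le_max_left _ _).trans (le_max_right _ _)).trans hqq
  have hqc : q₃ ≤ q := ((le_max_right _ _).trans (le_max_right _ _)).trans hqq
  have hm : qi F q ≠ ⊥ := qi_ne_bot F q hq
  have hmt : qi F q ≠ ⊤ := qi_ne_top F q hq
  obtain ⟨β, hβ⟩ := hCOR F L (qi F q) hm hmt hL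
  obtain ⟨hnorm, hidx, hlift, hres, -⟩ := hGRF F L
  haveI := hnorm
  have hcom := hCOM F L (qi F q) hL
  obtain ⟨hc1, hc2⟩ := hq3 q hq hqc L β hβ
  have hc3 := hq4 q hq hqd L β hβ
  set N : ℝ := (nc (qi F q) (qi F q) : ℝ) with hN
  have hb := hq2 q hq hqb
  obtain ⟨hPf, hPpos, hZ, hS⟩ := hq1 q hq hqa
  set X : ℝ := T / Real.pi * Real.log q with hX
  have hX0 : 0 ≤ X := mul_nonneg (div_nonneg hT0.le Real.pi_pos.le)
    (Real.log_nonneg (by exact_mod_cast hq.one_lt.le))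
  have hChf := (hOR F (qi F q) (qi F q) hm le_rfl).1
  have hNpos : 0 < N := by
    have := (hOR F (qi F q) (qi F q) hm le_rfl).2.1
    rw [hN]
    exact_mod_cast this
  obtain ⟨hIf, hIc⟩ := hGCT (L ≃ₐ[ℚ] L) (HF F L) hcom
  refine ⟨hIf, ?_⟩
  rw [hF2] at hidx
  haveI hfinhom : Finite (HF F L →* ℂˣ) := by
    have : (Set.univ : Set (HF F L →* ℂˣ)).Finite := by
      rw [← hβ.1.image_eq]
      exact hChf.image β
    exact Set.finite_univ_iff.1 this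
  have hbij := bij_Pr hm hmt
  set B : RCC F → (HF F L →* ℂˣ) := fun χ => β χ.ψ with hB
  have hinj : Set.InjOn B (Pr F (qi F q)) := by
    intro χ hχ χ' hχ' h
    refine hbij.injOn hχ hχ' ?_
    exact hβ.1.injOn (hbij.mapsTo hχ).1 (hbij.mapsTo hχ').1 h
  -- the finite sets
  set P : Finset (RCC F) := hPf.toFinset with hP
  have hmemP : ∀ χ, χ ∈ P ↔ χ ∈ Pr F (qi F q) := fun χ => hPf.mem_toFinset
  have hPcard : ((Pr F (qi F q)).ncard : ℝ) = P.card := by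
    rw [Set.ncard_eq_toFinset_card _ hPf]
  set P' : Finset (RCC F) := P.filter (fun χ => B χ ∈ Gen (HF F L) ∧ B χ ∈ Nsd (HF F L)) with hP'
  have hmemP' : ∀ χ, χ ∈ P' ↔ χ ∈ Pr F (qi F q) ∧ (B χ ∈ Gen (HF F L) ∧ B χ ∈ Nsd (HF F L)) :=
    fun χ => by rw [hP', Finset.mem_filter, hmemP]
  have hdiff : ((P \ P').card : ℝ) ≤ 2 * t * N := by
    have h3 : B '' (↑(P \ P') : Set (RCC F)) ⊆ (Gen (HF F L))ᶜ ∪ (Nsd (HF F L))ᶜ := by
      rintro φ ⟨χ, hχ, rfl⟩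
      rw [Finset.mem_coe, Finset.mem_sdiff, hmemP', hmemP] at hχ
      by_cases h4 : B χ ∈ Gen (HF F L)
      · by_cases h5 : B χ ∈ Nsd (HF F L)
        · exact absurd ⟨hχ.1, h4, h5⟩ hχ.2
        · exact Or.inr h5
      · exact Or.inl h4
    have h4 : Set.InjOn B (↑(P \ P') : Set (RCC F)) := hinj.mono fun χ hχ => by
      rw [Finset.mem_coe, Finset.mem_sdiff, hmemP] at hχ
      exact hχ.1
    have h5 := (Set.ncard_le_ncard h3 (Set.toFinite _)).trans (Set.ncard_union_le _ _)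
    rw [h4.ncard_image, Set.ncard_coe_finset] at h5
    have h6 : ((P \ P').card : ℝ) ≤ (Gen (HF F L))ᶜ.ncard + (Nsd (HF F L))ᶜ.ncard := by
      exact_mod_cast h5
    linarith
  -- the induced characters
  set Fc : RCC F → ((L ≃ₐ[ℚ] L) → ℂ) := fun χ => indc (HF F L) (B χ) with hFc
  set U : Finset ((L ≃ₐ[ℚ] L) → ℂ) := P'.image Fc with hU
  have hmemU : ∀ f, f ∈ U ↔ ∃ χ ∈ P', Fc χ = f := fun f => by
    rw [hU]
    simp only [Finset.mem_image]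
  set w : RCC F → ℝ := fun χ => ((SZ (Zx χ) 0 T).ncard : ℝ) with hw
  have hw0 : ∀ χ, 0 ≤ w χ := fun χ => Nat.cast_nonneg _
  have hPne : (P : Set (RCC F)).Nonempty := by
    have h3 : 0 < P.card := by
      have : (0 : ℝ) < P.card := by
        rw [← hPcard]
        exact_mod_cast hPpos
      exact_mod_cast this
    exact Finset.card_pos.1 h3
  haveI : Nonempty (RCC F) := ⟨hPne.some⟩
  have hex : ∀ f ∈ U, ∃ χ : RCC F, χ ∈ P' ∧ Fc χ = f ∧ ∀ χ' ∈ P', Fc χ' = f → w χ' ≤ w χ := by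
    intro f hf
    obtain ⟨χ₀, h3, h4⟩ := (hmemU f).1 hf
    obtain ⟨χ, h5, h6⟩ := (P'.filter (fun χ => Fc χ = f)).exists_max_image w
      ⟨χ₀, Finset.mem_filter.2 ⟨h3, h4⟩⟩
    rw [Finset.mem_filter] at h5
    exact ⟨χ, h5.1, h5.2, fun χ' h7 h8 => h6 χ' (Finset.mem_filter.2 ⟨h7, h8⟩)⟩
  choose! g hg1 hg2 hg3 using hex
  -- the fibres
  have hfib : ∀ f : (L ≃ₐ[ℚ] L) → ℂ, ∀ Y : Finset (RCC F), Y ⊆ P' → (∀ χ ∈ Y, Fc χ = f) →
      Y.card ≤ 2 := by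
    intro f Y hY hYf
    have h4 : Set.InjOn B (↑Y : Set (RCC F)) := hinj.mono fun χ hχ => by
      exact ((hmemP' χ).1 (hY hχ)).1
    have h5 := hFIB (L ≃ₐ[ℚ] L) (HF F L) hcom (B '' (↑Y : Set (RCC F)))
    rw [hidx, h4.ncard_image, Set.ncard_coe_finset] at h5
    have h6 : ((fun φ => indc (HF F L) φ) '' (B '' (↑Y : Set (RCC F)))) ⊆ {f} := by
      rintro _ ⟨_, ⟨χ, hχ, rfl⟩, rfl⟩
      exact hYf χ hχ
    have h7 := Set.ncard_le_ncard h6 (Set.finite_singleton f)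
    rw [Set.ncard_singleton] at h7
    omega
  have hsum := fib_sum P' U Fc w g 2 hw0 (fun χ hχ => (hmemU _).2 ⟨χ, hχ, rfl⟩)
    (fun f _ Y hY hYf => hfib f Y hY hYf) (fun f hf χ hχ h => hg3 f hf χ hχ h)
  have hcard := fib_sum P' U Fc (fun _ => (1 : ℝ)) g 2 (fun _ => zero_le_one)
    (fun χ hχ => (hmemU _).2 ⟨χ, hχ, rfl⟩)
    (fun f _ Y hY hYf => hfib f Y hY hYf) (fun f hf χ hχ h => le_rfl)
  simp only [Finset.sum_const, nsmul_eq_mul, mul_one, Nat.cast_ofNat] at hcard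
  -- the number of the irreducible characters
  have hI4 : (2 : ℝ) * (Irr (L ≃ₐ[ℚ] L)).ncard ≤ (1 + 4 * t) * N := by
    rw [hidx] at hIc
    have h5 : (2 : ℝ) * (Irr (L ≃ₐ[ℚ] L)).ncard ≤ (Gen (HF F L)).ncard +
        (2 : ℝ) ^ 2 * (Gen (HF F L))ᶜ.ncard := by exact_mod_cast hIc
    have h6 : ((Gen (HF F L)).ncard : ℝ) ≤ N := by
      rw [← hc2, ← Set.ncard_univ]
      exact_mod_cast Set.ncard_le_ncard (Set.subset_univ _) (Set.toFinite _)
    linarith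
  have hUI : (↑U : Set ((L ≃ₐ[ℚ] L) → ℂ)) ⊆ Irr (L ≃ₐ[ℚ] L) := by
    intro f hf
    obtain ⟨χ, h3, rfl⟩ := (hmemU f).1 hf
    exact (hIIR (L ≃ₐ[ℚ] L) (HF F L) hcom (B χ) ((hmemP' χ).1 h3).2.1).1
  have hUle : (U.card : ℝ) ≤ (Irr (L ≃ₐ[ℚ] L)).ncard := by
    have h3 := Set.ncard_le_ncard hUI hIf
    rw [Set.ncard_coe_finset] at h3
    exact_mod_cast h3
  have hPP : (P.card : ℝ) ≤ P'.card + 2 * t * N := by
    have h3 := Finset.card_sdiff_add_card_eq_card (Finset.filter_subset _ P : P' ⊆ P)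
    have h4 : ((P \ P').card : ℝ) + P'.card = P.card := by exact_mod_cast h3
    linarith
  have hzw : ∀ χ ∈ P, w χ ≤ (1 + t) * X := by
    intro χ hχ
    obtain ⟨h3, h4, h5, h6⟩ := hZ χ ((hmemP χ).1 hχ)
    refine le_trans ?_ h6
    refine (h2.2 (Zx χ) T (fun s hs => ⟨h3.1.analyticAt s, ord_ne_top h4 hs⟩) h4).2
  refine ⟨↑U, fun f => Zx (g f), hUI, ?_, ?_, ?_⟩
  · rw [Set.ncard_coe_finset]
    refine ineq_one ε t N _ _ P.card P'.card ht0 htε hNpos (Nat.cast_nonneg _)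
      (Nat.cast_nonneg _) ?_ hPP hcard hI4
    rw [← hPcard]
    exact hb
  · intro f hf
    rw [Finset.mem_coe] at hf
    have h3 := (hmemP' (g f)).1 (hg1 f hf)
    have h4 := hg2 f hf
    obtain ⟨h5, h6, h7, h8⟩ := hZ (g f) h3.1
    obtain ⟨h9, h10⟩ := hIIR (L ≃ₐ[ℚ] L) (HF F L) hcom (B (g f)) h3.2.1
    refine ⟨?_, ?_, h5.1, ?_, h6, ?_⟩
    · rw [← h4]
      change indc (HF F L) (B (g f)) 1 = 2
      rw [h10, hidx]
      norm_num
    · rw [← h4]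
      exact hFSI (L ≃ₐ[ℚ] L) (HF F L) hcom (B (g f)) h3.2.2
    · intro D V _ _ _ ρ hρ s hs
      change HasProd (fun p => (D.rep V ρ).euler p s) (Zx (g f) s)
      rw [h5.2 s hs]
      refine hALF F L (qi F q) (g f) (B (g f)) hm ?_ D V ρ (fun x => ?_) s hs
      · intro Q x h hQ hx hh
        exact hβ.2 (g f).ψ (hbij.mapsTo h3.1).1 Q x h hQ hx hh
      · exact (congrFun hρ x).symm.trans (congrFun h4 x).symm
    · refine h8.trans (mul_le_mul_of_nonneg_right ?_ hX0)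
      linarith
  · rw [Set.ncard_coe_finset, finsum_mem_coe_finset]
    rw [finsum_mem_eq_finite_toFinset_sum _ hPf, hPcard] at hS
    have hsplit : ∑ χ ∈ P, w χ ≤ ∑ χ ∈ P', w χ + 2 * t * N * ((1 + t) * X) := by
      rw [← Finset.sum_sdiff (Finset.filter_subset _ P : P' ⊆ P), add_comm]
      refine add_le_add le_rfl ?_
      have h3 : ∑ χ ∈ P \ P', w χ ≤ (P \ P').card • ((1 + t) * X) :=
        Finset.sum_le_card_nsmul _ _ _ fun χ hχ => hzw χ (Finset.sdiff_subset hχ)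
      rw [nsmul_eq_mul] at h3
      exact h3.trans (mul_le_mul_of_nonneg_right hdiff
        (mul_nonneg (by linarith) hX0))
    refine ineq_two ε t X N _ U.card P.card (∑ χ ∈ P, w χ) (∑ χ ∈ P', w χ)
      (∑ f ∈ U, w (g f)) ht0 ht1 htε hNpos hX0 (Nat.cast_nonneg _)
      (Finset.sum_nonneg fun f _ => hw0 _) ?_ hUle hI4 hS hsplit ?_
    · rw [← hPcard]
      exact hb
    · have h3 := hsum
      rw [Nat.cast_ofNat] at h3
      exact h3

end Pool.Agent.H69.CRZ
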